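import Pool.Agent.J6H36.BSV.Defs

/-!
# Independent copies of an algebraically closed subfield (module COPY of helper36)
-/

set_option autoImplicit false

universe u

namespace Pool.Agent.J6H23.BSV

open Cardinal Set Pool.Agent.J6H36.BSV

section

variable {k Ω : Type u} [Field k] [Field Ω] [Algebra k Ω]

/-- the isomorphism of the fields generated by two algebraically independent families -/
noncomputable def isoOf {ι : Type u} {s0 s1 : ι → Ω} (h0 : AlgebraicIndependent k s0)
    (h1 : AlgebraicIndependent k s1) :
    IntermediateField.adjoin k (range s0) ≃ₐ[k] IntermediateField.adjoin k (range s1) :=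
  h0.aevalEquivField.symm.trans h1.aevalEquivField

/-- extension of the isomorphism to the algebraic closure -/
theorem exists_ext [IsAlgClosed Ω] {ι : Type u} {s0 s1 : ι → Ω} (h0 : AlgebraicIndependent k s0)
    (h1 : AlgebraicIndependent k s1) :
    ∃ τ : ((algebraicClosure (IntermediateField.adjoin k (range s0)) Ω).restrictScalars k) →ₐ[k] Ω,
      ∀ x, IsAlgebraic (IntermediateField.adjoin k (range s1)) (τ x) := by
  have hf := IntermediateField.exists_algHom_of_splits' (F := k)
    (L := IntermediateField.adjoin k (range s0))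
    (E := algebraicClosure (IntermediateField.adjoin k (range s0)) Ω) (K := Ω)
    ((IntermediateField.val _).comp (isoOf h0 h1).toAlgHom) (fun x =>
      ⟨Algebra.IsIntegral.isIntegral x, IsAlgClosed.splits _⟩)
  obtain ⟨φ, hφ⟩ := hf
  refine ⟨φ, fun x => ?_⟩
  refine IsAlgebraic.ringHom_of_comp_eq (R := IntermediateField.adjoin k (range s0))
    (A := algebraicClosure (IntermediateField.adjoin k (range s0)) Ω)
    (S := IntermediateField.adjoin k (range s1)) (B := Ω) (isoOf h0 h1) φ
    (Algebra.IsAlgebraic.isAlgebraic
      (A := algebraicClosure (IntermediateField.adjoin k (range s0)) Ω) x)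
    (isoOf h0 h1).injective ?_
  ext y
  have := DFunLike.congr_fun hφ y
  exact this.symm

end

theorem t_COPY : S_COPY.{u} := by
  intro k Ω _ _ _ _ _ κ _ hκ Z
  obtain ⟨B, hB⟩ := exists_isTranscendenceBasis k Ω
  have hBc : #B = Algebra.trdeg k Ω := hB.cardinalMk_eq_trdeg
  have hinf : Infinite B := by
    rw [Cardinal.infinite_iff, hBc]
    exact le_trans (Cardinal.aleph0_le_mk κ) hκ
  -- a finite part
  have hZ : (Z : Set Ω) ⊆ (AlgebraicIndependent.matroid k Ω).closure B := by
    intro z _
    rw [AlgebraicIndependent.matroid_closure_eq, SetLike.mem_coe, Subalgebra.mem_algebraicClosure]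
    have := hB.isAlgebraic
    rw [Subtype.range_val] at this
    exact this.1 z
  obtain ⟨J1, hJ1, hJ1f, -, hZJ⟩ :=
    Matroid.exists_subset_finite_closure_of_subset_closure Z.finite_toSet hZ
  obtain ⟨b0⟩ : Nonempty B := inferInstance
  set J0 : Set Ω := insert (b0 : Ω) J1 with hJ0
  have hJB : J0 ⊆ B := insert_subset b0.2 hJ1
  have hJf : J0.Finite := hJ1f.insert _
  have : Finite J0 := hJf
  have : Nonempty J0 := ⟨⟨b0, mem_insert _ _⟩⟩
  have hcard : #(κ × J0) ≤ #B := by
    rw [hBc, Cardinal.mk_prod, Cardinal.lift_id, Cardinal.lift_id]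
    refine le_trans (le_of_eq ?_) hκ
    exact Cardinal.mul_eq_left (Cardinal.aleph0_le_mk κ)
      (le_trans (le_of_lt (Cardinal.lt_aleph0_of_finite _)) (Cardinal.aleph0_le_mk κ))
      (Cardinal.mk_ne_zero _)
  obtain ⟨f⟩ := hcard
  let s0 : J0 → Ω := Subtype.val
  have h0 : AlgebraicIndependent k s0 :=
    hB.1.comp (inclusion hJB) (inclusion_injective hJB)
  let s1 : κ → J0 → Ω := fun a j => (f (a, j) : Ω)
  have h1 : ∀ a, AlgebraicIndependent k (s1 a) := fun a =>
    hB.1.comp (fun j => f (a, j)) (fun j j' h => by simpa using f.injective h)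
  choose τ hτ using fun a => exists_ext h0 (h1 a)
  refine ⟨_, τ, ?_, ?_⟩
  · intro z hz
    have h2 := hZJ hz
    rw [AlgebraicIndependent.matroid_closure_eq, SetLike.mem_coe,
      Subalgebra.mem_algebraicClosure] at h2
    change z ∈ algebraicClosure (IntermediateField.adjoin k (range s0)) Ω
    rw [mem_algebraicClosure_iff, IntermediateField.isAlgebraic_adjoin_iff]
    have h3 : J1 ⊆ range s0 := by
      rw [show range s0 = J0 from Subtype.range_val]
      exact subset_insert _ _
    exact h2.adjoin_of_forall_isAlgebraic fun x hx => (hx.2 (h3 hx.1)).elim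
  · intro a I ha
    let SI : Set B := (fun p : κ × J0 => f p) '' {p | p.1 ∈ I}
    let TI : Set B := range fun j : J0 => f (a, j)
    have hdis : Disjoint SI TI := by
      rw [Set.disjoint_left]
      rintro _ ⟨p, hp, rfl⟩ ⟨j, hj⟩
      have := f.injective hj
      apply ha
      have hp' : p.1 ∈ I := hp
      rwa [← show a = p.1 from congrArg Prod.fst this] at hp'
    let E : IntermediateField k Ω := IntermediateField.adjoin k ((fun i : B => (i : Ω)) '' SI)
    have h2 : AlgebraicIndependent E (s1 a) := by
      have h3 := (hB.1.adjoin_of_disjoint hdis).comp (fun j : J0 => (⟨f (a, j), j, rfl⟩ : TI))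
        (fun j j' h => by
          have := congrArg Subtype.val h
          simpa using f.injective this)
      exact IntermediateField.algebraicIndependent_adjoin_iff.2 h3
    refine ⟨(algebraicClosure E Ω).restrictScalars k, ?_, J0, inferInstance, s1 a, ?_, ?_, ?_⟩
    · exact (algebraicClosure.isAlgClosure E Ω).isAlgClosed
    · exact h2.algebraicClosure
    · intro b hb x
      change τ b x ∈ algebraicClosure E Ω
      rw [mem_algebraicClosure_iff, IntermediateField.isAlgebraic_adjoin_iff]
      have h3 := IntermediateField.isAlgebraic_adjoin_iff.1 (hτ b x)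
      refine h3.adjoin_of_forall_isAlgebraic fun x hx => (hx.2 ?_).elim
      obtain ⟨j, rfl⟩ := hx.1
      exact ⟨f (b, j), ⟨(b, j), hb, rfl⟩, rfl⟩
    · intro x
      exact IntermediateField.isAlgebraic_adjoin_iff.1 (hτ a x)

end Pool.Agent.J6H23.BSV
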